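import Mathlib

set_option autoImplicit false

namespace Pool.Agent.Results.MP_5317dd_nt.AlmostAllD

open Filter Topology

/-- Wiggin's map `F_D`. -/
def F (D x : ℕ) : ℕ :=
  if x % D = 0 then x / D
  else if x % D = D - 1 then (D + 1) * x + 1
  else (D + 1) * x - x % D

/-- `n` descends below `D` under iteration of `F_D`. -/
def Desc (D n : ℕ) : Prop := ∃ k : ℕ, (F D)^[k] n < D

lemma desc_of_lt {D n : ℕ} (h : n < D) : Desc D n := ⟨0, h⟩

lemma desc_of_F {D n : ℕ} (h : Desc D (F D n)) : Desc D n := by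
  obtain ⟨k, hk⟩ := h
  exact ⟨k+1, by rw [Function.iterate_succ_apply]; exact hk⟩

lemma F_mul {D q : ℕ} (hD : 0 < D) : F D (D * q) = q := by
  unfold F
  rw [if_pos (Nat.mul_mod_right D q), Nat.mul_div_cancel_left _ hD]

lemma desc_mul {D q : ℕ} (hq : q < D) : Desc D (D * q) :=
  desc_of_F (by rw [F_mul (by omega)]; exact desc_of_lt hq)

lemma mod_aux {D q j : ℕ} (hj : j < D) : (D * q + j) % D = j := by
  rw [Nat.mul_add_mod, Nat.mod_eq_of_lt hj]

lemma desc_mid {D q j : ℕ} (h1 : 1 ≤ j) (h2 : j + 2 ≤ D) (h : Desc D (D*q + j + q)) :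
    Desc D (D * q + j) := by
  apply desc_of_F
  have hm := mod_aux (q := q) (show j < D by omega)
  have hF : F D (D*q+j) = D * (D*q+j+q) := by
    unfold F
    rw [hm, if_neg (by omega), if_neg (by omega)]
    have : (D+1) * (D*q+j) = D * (D*q+j+q) + j := by ring
    omega
  rw [hF]
  apply desc_of_F
  rw [F_mul (by omega)]
  exact h

lemma desc_last {D q : ℕ} (h2 : 2 ≤ D) (h : Desc D (D*(q+1) + q)) :
    Desc D (D * q + (D-1)) := by
  apply desc_of_F
  have hm := mod_aux (q := q) (show D-1 < D by omega)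
  have hF : F D (D*q+(D-1)) = D * (D*(q+1)+q) := by
    unfold F
    rw [hm, if_neg (by omega), if_pos rfl]
    obtain ⟨d, rfl⟩ : ∃ d, D = d+1 := ⟨D-1, by omega⟩
    simp only [Nat.add_sub_cancel]
    ring
  rw [hF]
  apply desc_of_F
  rw [F_mul (by omega)]
  exact h

def r (D q e : ℕ) : ℕ := (D + (q - e % q)) % q
def nx (D q e : ℕ) : ℕ := if r D q e = 1 ∨ q = 1 then q else q - r D q e

lemma r_eq {D q j : ℕ} (hq : 1 ≤ q) (hj : j ≤ D) : r D q j = (D - j) % q := by
  unfold r
  have h1 := Nat.mod_add_div j q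
  have h2 : j % q < q := Nat.mod_lt _ (by omega)
  have h3 : D + (q - j % q) = (D - j) + q * (j / q + 1) := by
    have : q * (j / q + 1) = q * (j/q) + q := by ring
    omega
  rw [h3, Nat.add_mul_mod_self_left]

lemma r_congr {D D' q e : ℕ} (h : D ≡ D' [MOD q]) : r D q e = r D' q e := by
  unfold r
  exact (Nat.ModEq.add_right _ h)

lemma nx_congr {D D' q e : ℕ} (h : D ≡ D' [MOD q]) : nx D q e = nx D' q e := by
  unfold nx
  rw [r_congr h]

lemma r_lt {D q e : ℕ} (hq : 1 ≤ q) : r D q e < q := Nat.mod_lt _ (by omega)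

lemma nx_bounds {D q e : ℕ} (hq : 1 ≤ q) : 1 ≤ nx D q e ∧ nx D q e ≤ q := by
  have := r_lt (D := D) (e := e) hq
  unfold nx
  split_ifs <;> omega

lemma level {D q : ℕ} (hq : 1 ≤ q) (hqD : q + 1 < D) :
    ∀ m j : ℕ, 1 ≤ j → j < D → D - j ≤ m →
      ((2 ≤ q ∧ r D q j = 0) ∨ Desc D (D*(q+1) + nx D q j)) → Desc D (D*q + j) := by
  intro m
  induction m with
  | zero => intro j h1 h2 h3; omega
  | succ m ih =>
    intro j h1 h2 h3 h
    have hr := r_eq hq h2.le
    by_cases hj : j + 1 = D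
    · have e1 : D - j = 1 := by omega
      rw [e1] at hr
      have hn : nx D q j = q := by
        unfold nx
        by_cases hq1 : q = 1
        · rw [if_pos (Or.inr hq1)]
        · rw [if_pos]
          left
          rw [hr]
          exact Nat.mod_eq_of_lt (by omega)
      have h' : Desc D (D*(q+1) + q) := by
        rcases h with h | h
        · exfalso
          rw [hr, Nat.mod_eq_of_lt (by omega)] at h
          omega
        · rwa [hn] at h
      have e2 : j = D - 1 := by omega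
      rw [e2]
      exact desc_last (by omega) h'
    · apply desc_mid h1 (by omega)
      by_cases hjq : j + q < D
      · rw [Nat.add_assoc]
        apply ih (j+q) (by omega) hjq (by omega)
        have er : r D q (j+q) = r D q j := by
          unfold r; rw [Nat.add_mod_right]
        have en : nx D q (j+q) = nx D q j := by
          unfold nx; rw [er]
        rw [er, en]
        exact h
      · by_cases hD : D - j = q
        · have e3 : D*q + j + q = D*(q+1) := by
            have : D*(q+1) = D*q + D := by ring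
            omega
          rw [e3]
          exact desc_mul hqD
        · have e4 : (D - j) % q = D - j := Nat.mod_eq_of_lt (by omega)
          rw [e4] at hr
          have hn : nx D q j = q - (D - j) := by
            unfold nx
            rw [if_neg (by omega), hr]
          rcases h with h | h
          · omega
          · rw [hn] at h
            have e5 : D*q + j + q = D*(q+1) + (q - (D - j)) := by
              have : D*(q+1) = D*q + D := by ring
              omega
            rw [e5]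
            exact h

/-- The sequence of entering offsets. -/
def tr (D q0 c : ℕ) : ℕ → ℕ
  | 0 => c
  | i+1 => nx D (q0+i) (tr D q0 c i)

lemma desc_tr {D q0 c k : ℕ} (hq0 : 1 ≤ q0) (hD : q0 + k + 1 < D)
    (hp : (q0+k).Prime) (hr : r D (q0+k) (tr D q0 c k) = 0) :
    ∀ d i, 1 ≤ i → i + d = k → Desc D (D*(q0+i) + tr D q0 c i) := by
  intro d
  induction d with
  | zero =>
    intro i hi hik
    have hik' : i = k := by omega
    subst hik'
    have hb : 1 ≤ tr D q0 c i ∧ tr D q0 c i ≤ q0 + i := by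
      obtain ⟨i', rfl⟩ : ∃ i', i = i'+1 := ⟨i-1, by omega⟩
      have := nx_bounds (D := D) (e := tr D q0 c i') (show 1 ≤ q0+i' by omega)
      constructor
      · exact this.1
      · exact this.2.trans (by omega)
    exact level (by omega) (by omega) (D - tr D q0 c i) _ hb.1 (by omega) le_rfl
      (Or.inl ⟨hp.two_le, hr⟩)
  | succ d ih =>
    intro i hi hik
    have hb : 1 ≤ tr D q0 c i ∧ tr D q0 c i ≤ q0 + i := by
      obtain ⟨i', rfl⟩ : ∃ i', i = i'+1 := ⟨i-1, by omega⟩
      have := nx_bounds (D := D) (e := tr D q0 c i') (show 1 ≤ q0+i' by omega)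
      constructor
      · exact this.1
      · exact this.2.trans (by omega)
    have h := ih (i+1) (by omega) (by omega)
    exact level (by omega) (by omega) (D - tr D q0 c i) _ hb.1 (by omega) le_rfl
      (Or.inr h)

lemma desc_start {D q0 j k : ℕ} (hq0 : 1 ≤ q0) (hD : q0 + k + 1 < D) (hk : 1 ≤ k)
    (hj1 : 1 ≤ j) (hj : j < D)
    (hp : (q0+k).Prime) (hr : r D (q0+k) (tr D q0 (j % q0) k) = 0) :
    Desc D (D*q0 + j) := by
  have h := desc_tr hq0 hD hp hr (k-1) 1 le_rfl (by omega)
  apply level hq0 (by omega) (D - j) j hj1 hj le_rfl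
  right
  have e1 : tr D q0 (j % q0) 1 = nx D q0 j := by
    show nx D (q0+0) (j % q0) = nx D q0 j
    unfold nx r
    simp only [Nat.add_zero, Nat.mod_mod]
  rw [e1] at h
  exact h

lemma tr_congr {D D' q0 c m : ℕ} (h : D ≡ D' [MOD m]) :
    ∀ i, (∀ t < i, (q0+t) ∣ m) → tr D q0 c i = tr D' q0 c i := by
  intro i
  induction i with
  | zero => intro _; rfl
  | succ i ih =>
    intro hd
    show nx D (q0+i) (tr D q0 c i) = nx D' (q0+i) (tr D' q0 c i)
    rw [ih (fun t ht => hd t (by omega))]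
    exact nx_congr (h.of_dvd (hd i (by omega)))

/-- No success at the prime levels up to `q0 + K`. -/
def Bad (q0 c K D : ℕ) : Prop :=
  ∀ i, 1 ≤ i → i ≤ K → (q0+i).Prime → r D (q0+i) (tr D q0 c i) ≠ 0

lemma dvd_fact {q0 K t : ℕ} (hq0 : 1 ≤ q0) (ht : t ≤ K) : (q0+t) ∣ (q0+K).factorial :=
  Nat.dvd_factorial (by omega) (by omega)

lemma bad_congr {q0 c K D D' : ℕ} (hq0 : 1 ≤ q0) (h : D ≡ D' [MOD (q0+K).factorial])
    (hb : Bad q0 c K D) : Bad q0 c K D' := by
  intro i h1 h2 hp
  have := hb i h1 h2 hp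
  rw [← tr_congr h i (fun t ht => dvd_fact hq0 (by omega)),
    ← r_congr (h.of_dvd (dvd_fact hq0 h2))]
  exact this

open Classical in
noncomputable def A (q0 c K : ℕ) : ℕ :=
  ((Finset.range (q0+K).factorial).filter (Bad q0 c K)).card

lemma A_zero (q0 c : ℕ) : A q0 c 0 ≤ (q0+0).factorial := by
  classical
  unfold A
  exact (Finset.card_filter_le _ _).trans (by simp)

lemma bad_mono {q0 c K D : ℕ} (h : Bad q0 c (K+1) D) : Bad q0 c K D :=
  fun i h1 h2 hp => h i h1 (by omega) hp

lemma A_succ (q0 c K : ℕ) (hq0 : 1 ≤ q0) :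
    A q0 c (K+1) ≤ (if (q0+K+1).Prime then q0+K else q0+K+1) * A q0 c K := by
  classical
  unfold A
  set m := (q0+K).factorial with hm
  have hmpos : 0 < m := Nat.factorial_pos _
  have hfac : (q0+(K+1)).factorial = (q0+K+1) * m := by
    rw [← Nat.add_assoc, Nat.factorial_succ]
  apply Finset.card_le_mul_card_image_of_maps_to (f := fun D => D % m)
  · intro D hD
    rw [Finset.mem_filter, Finset.mem_range] at hD ⊢
    refine ⟨Nat.mod_lt _ hmpos, ?_⟩
    exact bad_congr hq0 (Nat.mod_modEq D m).symm (bad_mono hD.2)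
  · intro b hb
    split_ifs with hp
    · -- prime level
      set e := tr b q0 c (K+1) with he
      have hcard : ((Finset.range (q0+K+1)).erase (e % (q0+K+1))).card = q0+K := by
        rw [Finset.card_erase_of_mem (Finset.mem_range.mpr (Nat.mod_lt _ (by omega))),
          Finset.card_range]
        omega
      rw [← hcard]
      apply Finset.card_le_card_of_injOn (fun D => D % (q0+K+1))
      · intro D hD
        rw [Finset.mem_coe, Finset.mem_filter, Finset.mem_filter] at hD
        obtain ⟨⟨_, hbad⟩, hmod⟩ := hD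
        rw [Finset.mem_coe, Finset.mem_erase, Finset.mem_range]
        refine ⟨?_, Nat.mod_lt _ (by omega)⟩
        intro heq
        have h1 := hbad (K+1) (by omega) le_rfl (by simpa [Nat.add_assoc] using hp)
        apply h1
        have hcong : D ≡ b [MOD m] := by
          show D % m = b % m
          have hmod' : D % m = b := hmod
          rw [← hmod', Nat.mod_mod]
        have h2 : tr D q0 c (K+1) = e :=
          tr_congr hcong (K+1) (fun t ht => dvd_fact hq0 (by omega))
        rw [h2]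
        unfold r
        rw [← Nat.add_assoc]
        have hlt : e % (q0+K+1) < q0+K+1 := Nat.mod_lt _ (by omega)
        have heq' : D % (q0+K+1) = e % (q0+K+1) := heq
        have : e % (q0+K+1) + (q0+K+1 - e % (q0+K+1)) = q0+K+1 := by omega
        rw [← Nat.mod_add_mod, heq', this, Nat.mod_self]
      · intro D hD D' hD' hDD
        rw [Finset.mem_coe, Finset.mem_filter, Finset.mem_filter, Finset.mem_range] at hD hD'
        obtain ⟨⟨hlt, _⟩, hmod⟩ := hD
        obtain ⟨⟨hlt', _⟩, hmod'⟩ := hD'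
        have c1 : D ≡ D' [MOD m] := by
          show D % m = D' % m
          exact hmod.trans hmod'.symm
        have c2 : D ≡ D' [MOD (q0+K+1)] := hDD
        have hcop : Nat.Coprime (q0+K+1) m := by
          rw [hm]
          exact (Nat.coprime_factorial_iff hp.ne_one).mpr (by rw [hp.minFac_eq]; omega)
        have c3 : D ≡ D' [MOD (q0+K+1) * m] :=
          (Nat.modEq_and_modEq_iff_modEq_mul hcop).mp ⟨c2, c1⟩
        rw [hfac] at hlt hlt'
        exact Nat.ModEq.eq_of_lt_of_lt c3 hlt hlt'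
    · rw [← Finset.card_range (q0+K+1)]
      apply Finset.card_le_card_of_injOn (fun D => D / m)
      · intro D hD
        rw [Finset.mem_coe, Finset.mem_filter, Finset.mem_filter, Finset.mem_range] at hD
        rw [Finset.mem_coe, Finset.mem_range]
        apply Nat.div_lt_of_lt_mul
        rw [Nat.mul_comm, ← hfac]
        exact hD.1.1
      · intro D hD D' hD' hDD
        rw [Finset.mem_coe, Finset.mem_filter] at hD hD'
        have h1 : D % m = D' % m := hD.2.trans hD'.2.symm
        have h2 : D / m = D' / m := hDD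
        rw [← Nat.mod_add_div D m, ← Nat.mod_add_div D' m, h1, h2]


/-- The factor at the level `q0 + i + 1`. -/
noncomputable def fac (q0 i : ℕ) : ℝ :=
  if (q0+i+1).Prime then (1:ℝ) / ((q0+i+1 : ℕ) : ℝ) else 0

lemma A_ratio (q0 c K : ℕ) (hq0 : 1 ≤ q0) :
    (A q0 c K : ℝ) / ((q0+K).factorial : ℝ) ≤ Real.exp (-(∑ i ∈ Finset.range K, fac q0 i)) := by
  induction K with
  | zero =>
    simp only [Finset.range_zero, Finset.sum_empty, neg_zero, Real.exp_zero]
    have h := A_zero q0 c
    have hpos : (0:ℝ) < ((q0+0).factorial : ℝ) := by exact_mod_cast Nat.factorial_pos _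
    rw [div_le_one hpos]
    exact_mod_cast h
  | succ K ih =>
    rw [Finset.sum_range_succ, neg_add, Real.exp_add]
    have h := A_succ q0 c K hq0
    have hfac : ((q0+(K+1)).factorial : ℝ) = ((q0+K+1 : ℕ) : ℝ) * ((q0+K).factorial : ℝ) := by
      rw [← Nat.add_assoc, Nat.factorial_succ]; push_cast; ring
    have hpos : (0:ℝ) < ((q0+K).factorial : ℝ) := by exact_mod_cast Nat.factorial_pos _
    have hpos2 : (0:ℝ) < ((q0+K+1 : ℕ) : ℝ) := by positivity
    have h' : (A q0 c (K+1) : ℝ) ≤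
        ((if (q0+K+1).Prime then q0+K else q0+K+1 : ℕ) : ℝ) * (A q0 c K : ℝ) := by
      exact_mod_cast h
    have hA0 : (0:ℝ) ≤ (A q0 c K : ℝ) / ((q0+K).factorial : ℝ) := by positivity
    calc (A q0 c (K+1) : ℝ) / ((q0+(K+1)).factorial : ℝ)
        ≤ (((if (q0+K+1).Prime then q0+K else q0+K+1 : ℕ) : ℝ) * (A q0 c K : ℝ)) /
            (((q0+K+1 : ℕ) : ℝ) * ((q0+K).factorial : ℝ)) := by
          rw [hfac]; gcongr
      _ = ((A q0 c K : ℝ) / ((q0+K).factorial : ℝ)) *
            (((if (q0+K+1).Prime then q0+K else q0+K+1 : ℕ) : ℝ) / ((q0+K+1 : ℕ) : ℝ)) := by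
          field_simp
      _ ≤ Real.exp (-(∑ i ∈ Finset.range K, fac q0 i)) * Real.exp (-fac q0 K) := by
          apply mul_le_mul ih _ (by positivity) (Real.exp_pos _).le
          unfold fac
          split_ifs with hp
          · have h1 : (((q0+K : ℕ)) : ℝ) / ((q0+K+1 : ℕ) : ℝ) = -((1:ℝ) / ((q0+K+1 : ℕ) : ℝ)) + 1 := by
              field_simp; push_cast; ring
            rw [h1]
            exact Real.add_one_le_exp _
          · rw [div_self hpos2.ne', neg_zero, Real.exp_zero]

lemma fac_nonneg (q0 i : ℕ) : 0 ≤ fac q0 i := by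
  unfold fac
  split_ifs <;> positivity

lemma fac_sum_tendsto (q0 : ℕ) :
    Tendsto (fun K => ∑ i ∈ Finset.range K, fac q0 i) atTop atTop := by
  rw [← not_summable_iff_tendsto_nat_atTop_of_nonneg (fac_nonneg q0)]
  intro h
  apply not_summable_one_div_on_primes
  rw [← summable_nat_add_iff (q0+1)]
  have e : (fun n : ℕ => Set.indicator {p : ℕ | p.Prime} (fun n : ℕ => (1:ℝ)/(n:ℝ)) (n + (q0+1)))
      = fac q0 := by
    funext i
    unfold fac
    rw [show i + (q0+1) = q0+i+1 by ring]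
    by_cases hp : (q0+i+1).Prime
    · rw [if_pos hp, Set.indicator_of_mem (show q0+i+1 ∈ {p : ℕ | p.Prime} from hp)]
    · rw [if_neg hp, Set.indicator_of_notMem (show q0+i+1 ∉ {p : ℕ | p.Prime} from hp)]
  rw [e]
  exact h

lemma A_lim (q0 c : ℕ) (hq0 : 1 ≤ q0) :
    Tendsto (fun K => (A q0 c K : ℝ) / ((q0+K).factorial : ℝ)) atTop (𝓝 0) := by
  have h1 : Tendsto (fun K => Real.exp (-(∑ i ∈ Finset.range K, fac q0 i))) atTop (𝓝 0) :=
    Real.tendsto_exp_neg_atTop_nhds_zero.comp (fac_sum_tendsto q0)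
  exact squeeze_zero (fun K => by positivity) (fun K => A_ratio q0 c K hq0) h1

open Classical in
lemma count_bad (q0 c K N : ℕ) (hq0 : 1 ≤ q0) :
    ((Finset.range N).filter (Bad q0 c K)).card ≤
      (N / (q0+K).factorial + 1) * A q0 c K := by
  unfold A
  set L := (q0+K).factorial with hL
  have hLpos : 0 < L := Nat.factorial_pos _
  apply Finset.card_le_mul_card_image_of_maps_to (f := fun D => D % L)
  · intro D hD
    rw [Finset.mem_filter, Finset.mem_range] at hD ⊢
    exact ⟨Nat.mod_lt _ hLpos, bad_congr hq0 (Nat.mod_modEq D L).symm hD.2⟩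
  · intro b hb
    rw [← Finset.card_range (N / L + 1)]
    apply Finset.card_le_card_of_injOn (fun D => D / L)
    · intro D hD
      rw [Finset.mem_coe, Finset.mem_filter, Finset.mem_filter, Finset.mem_range] at hD
      rw [Finset.mem_coe, Finset.mem_range]
      exact Nat.lt_succ_of_le (Nat.div_le_div_right hD.1.1.le)
    · intro D hD D' hD' hDD
      rw [Finset.mem_coe, Finset.mem_filter] at hD hD'
      have h1 : D % L = D' % L := hD.2.trans hD'.2.symm
      have h2 : D / L = D' / L := hDD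
      rw [← Nat.mod_add_div D L, ← Nat.mod_add_div D' L, h1, h2]

def Good (M D : ℕ) : Prop := ∀ n, 1 ≤ n → n ≤ M * D → Desc D n

lemma not_good {M K D : ℕ} (hD : M + K + 2 ≤ D) (h : ¬ Good M D) :
    ∃ q0 ∈ Finset.Icc 1 M, ∃ c ∈ Finset.range q0, Bad q0 c K D := by
  unfold Good at h
  push Not at h
  obtain ⟨n, hn1, hn2, hn3⟩ := h
  have hDpos : 0 < D := by omega
  have hDn : D ≤ n := by
    by_contra hlt
    exact hn3 (desc_of_lt (by omega))
  have hq1 : 1 ≤ n / D := (Nat.one_le_div_iff hDpos).mpr hDn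
  have hqM : n / D ≤ M := Nat.div_le_of_le_mul (by rw [Nat.mul_comm]; exact hn2)
  have hdm := Nat.div_add_mod n D
  have hj : n % D < D := Nat.mod_lt _ hDpos
  have hj1 : 1 ≤ n % D := by
    by_contra h0
    have h0' : n % D = 0 := by omega
    rw [h0', Nat.add_zero] at hdm
    apply hn3
    rw [← hdm]
    exact desc_mul (by omega)
  refine ⟨n / D, Finset.mem_Icc.mpr ⟨hq1, hqM⟩, (n % D) % (n / D),
    Finset.mem_range.mpr (Nat.mod_lt _ (by omega)), ?_⟩
  intro i h1 h2 hp hr
  apply hn3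
  rw [← hdm]
  exact desc_start (k := i) hq1 (by omega) h1 hj1 hj hp hr

lemma lim0 (b δ C : ℕ → ℝ) (h0 : ∀ N, 0 ≤ b N) (h : ∀ K N : ℕ, b N ≤ C K + (N:ℝ) * δ K)
    (hδ : Tendsto δ atTop (𝓝 0)) : Tendsto (fun N : ℕ => b N / (N:ℝ)) atTop (𝓝 0) := by
  rw [Metric.tendsto_atTop]
  intro ε hε
  have h1 : ∀ᶠ K in atTop, δ K < ε / 2 := (tendsto_order.mp hδ).2 _ (by positivity)
  obtain ⟨K, hK⟩ := h1.exists
  have h2 : Tendsto (fun N : ℕ => C K / (N:ℝ)) atTop (𝓝 0) :=
    tendsto_const_div_atTop_nhds_zero_nat (C K)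
  have h3 : ∀ᶠ N : ℕ in atTop, C K / (N:ℝ) < ε / 2 :=
    (tendsto_order.mp h2).2 _ (by positivity)
  obtain ⟨N0, hN0⟩ := eventually_atTop.mp (h3.and (eventually_ge_atTop 1))
  refine ⟨N0, fun N hN => ?_⟩
  obtain ⟨h4, h5⟩ := hN0 N hN
  have hNpos : (0:ℝ) < (N:ℝ) := by exact_mod_cast h5
  rw [Real.dist_eq, sub_zero, abs_of_nonneg (div_nonneg (h0 N) hNpos.le)]
  calc b N / (N:ℝ) ≤ (C K + (N:ℝ) * δ K) / (N:ℝ) := by gcongr; exact h K N
    _ = C K / (N:ℝ) + δ K := by field_simp
    _ < ε / 2 + ε / 2 := by linarith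
    _ = ε := by ring

open Classical in
lemma bad_count (M K N : ℕ) :
    (((Finset.range (N+1)).filter (fun D => ¬ Good M D)).card : ℝ) ≤
      ((M + K + 2 : ℕ) + ∑ q0 ∈ Finset.Icc 1 M, ∑ c ∈ Finset.range q0, 2 * (A q0 c K : ℝ)) +
      (N:ℝ) * ∑ q0 ∈ Finset.Icc 1 M, ∑ c ∈ Finset.range q0,
        (A q0 c K : ℝ) / ((q0+K).factorial : ℝ) := by
  have hsub : (Finset.range (N+1)).filter (fun D => ¬ Good M D) ⊆
      Finset.range (M+K+2) ∪ (Finset.Icc 1 M).biUnion (fun q0 =>
        (Finset.range q0).biUnion (fun c => (Finset.range (N+1)).filter (Bad q0 c K))) := by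
    intro D hD
    rw [Finset.mem_filter] at hD
    rw [Finset.mem_union]
    by_cases hlt : D < M+K+2
    · left; exact Finset.mem_range.mpr hlt
    · right
      obtain ⟨q0, hq0, c, hc, hb⟩ := not_good (K := K) (by omega) hD.2
      rw [Finset.mem_biUnion]
      refine ⟨q0, hq0, ?_⟩
      rw [Finset.mem_biUnion]
      exact ⟨c, hc, Finset.mem_filter.mpr ⟨hD.1, hb⟩⟩
  have h1 := (Finset.card_le_card hsub).trans (Finset.card_union_le _ _)
  rw [Finset.card_range] at h1
  have h2 : ((Finset.Icc 1 M).biUnion (fun q0 =>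
        (Finset.range q0).biUnion (fun c => (Finset.range (N+1)).filter (Bad q0 c K)))).card
      ≤ ∑ q0 ∈ Finset.Icc 1 M, ∑ c ∈ Finset.range q0,
          ((N+1) / (q0+K).factorial + 1) * A q0 c K := by
    refine Finset.card_biUnion_le.trans (Finset.sum_le_sum fun q0 hq0 => ?_)
    refine Finset.card_biUnion_le.trans (Finset.sum_le_sum fun c _ => ?_)
    exact count_bad q0 c K (N+1) (Finset.mem_Icc.mp hq0).1
  have h3 : (((Finset.range (N+1)).filter (fun D => ¬ Good M D)).card : ℝ) ≤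
      ((M + K + 2 : ℕ) : ℝ) + ((∑ q0 ∈ Finset.Icc 1 M, ∑ c ∈ Finset.range q0,
          ((N+1) / (q0+K).factorial + 1) * A q0 c K : ℕ) : ℝ) := by
    exact_mod_cast h1.trans (Nat.add_le_add_left h2 _)
  refine h3.trans ?_
  rw [add_assoc ((M + K + 2 : ℕ) : ℝ)]
  refine add_le_add le_rfl ?_
  push_cast
  rw [Finset.mul_sum, ← Finset.sum_add_distrib]
  refine Finset.sum_le_sum fun q0 _ => ?_
  rw [Finset.mul_sum, ← Finset.sum_add_distrib]
  refine Finset.sum_le_sum fun c _ => ?_
  have hL1 : (1:ℝ) ≤ ((q0+K).factorial : ℝ) := by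
    exact_mod_cast Nat.one_le_iff_ne_zero.mpr (Nat.factorial_ne_zero _)
  have hLpos : (0:ℝ) < ((q0+K).factorial : ℝ) := by linarith
  have hA : (0:ℝ) ≤ (A q0 c K : ℝ) := by positivity
  have h4 : (((N+1) / (q0+K).factorial : ℕ) : ℝ) ≤ ((N:ℝ)+1) / ((q0+K).factorial : ℝ) := by
    have := @Nat.cast_div_le ℝ _ _ _ (N+1) (q0+K).factorial
    push_cast at this ⊢
    exact this
  have h5 : (1:ℝ) / ((q0+K).factorial : ℝ) ≤ 1 := by
    rw [div_le_one hLpos]; exact hL1
  have h6 : (A q0 c K : ℝ) / ((q0+K).factorial : ℝ) ≤ (A q0 c K : ℝ) := by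
    calc (A q0 c K : ℝ) / ((q0+K).factorial : ℝ)
        = (A q0 c K : ℝ) * (1 / ((q0+K).factorial : ℝ)) := by ring
      _ ≤ (A q0 c K : ℝ) * 1 := by gcongr
      _ = _ := by ring
  calc ((((N+1) / (q0+K).factorial : ℕ) : ℝ) + 1) * (A q0 c K : ℝ)
      ≤ (((N:ℝ)+1) / ((q0+K).factorial : ℝ) + 1) * (A q0 c K : ℝ) := by gcongr
    _ = (A q0 c K : ℝ) + (A q0 c K : ℝ) / ((q0+K).factorial : ℝ)
          + (N:ℝ) * ((A q0 c K : ℝ) / ((q0+K).factorial : ℝ)) := by ring
    _ ≤ 2 * (A q0 c K : ℝ) + (N:ℝ) * ((A q0 c K : ℝ) / ((q0+K).factorial : ℝ)) := by linarith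

/-- For every `M`, the set of `D ≥ 2` such that every `n ≤ M D` descends below `D` under
iteration of Wiggin's map `F_D` has natural density one. -/
theorem result (M : ℕ) :
    Tendsto (fun N : ℕ =>
      (({D : ℕ | 2 ≤ D ∧ D ≤ N ∧ ∀ n : ℕ, 1 ≤ n → n ≤ M * D →
        ∃ k : ℕ,
          (fun x : ℕ =>
            if x % D = 0 then x / D
            else if x % D = D - 1 then (D + 1) * x + 1
            else (D + 1) * x - x % D)^[k] n < D}.ncard : ℝ) / (N:ℝ))) atTop (𝓝 1) := by
  classical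
  have hb : Tendsto (fun N : ℕ =>
      (((Finset.range (N+1)).filter (fun D => ¬ Good M D)).card : ℝ) / (N:ℝ)) atTop (𝓝 0) := by
    apply lim0 _ (fun K => ∑ q0 ∈ Finset.Icc 1 M, ∑ c ∈ Finset.range q0,
        (A q0 c K : ℝ) / ((q0+K).factorial : ℝ)) (fun K => ((M + K + 2 : ℕ) +
          ∑ q0 ∈ Finset.Icc 1 M, ∑ c ∈ Finset.range q0, 2 * (A q0 c K : ℝ)))
    · intro N; positivity
    · intro K N; exact bad_count M K N
    · rw [show (0:ℝ) = ∑ q0 ∈ Finset.Icc 1 M, ∑ c ∈ Finset.range q0, (0:ℝ) by simp]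
      refine tendsto_finsetSum _ fun q0 hq0 => tendsto_finsetSum _ fun c _ => ?_
      exact A_lim q0 c (Finset.mem_Icc.mp hq0).1
  have h1 : Tendsto (fun N : ℕ => (1:ℝ) - ((1:ℝ) / (N:ℝ) +
      (((Finset.range (N+1)).filter (fun D => ¬ Good M D)).card : ℝ) / (N:ℝ))) atTop (𝓝 1) := by
    have h2 : Tendsto (fun N : ℕ => (1:ℝ) / (N:ℝ)) atTop (𝓝 0) :=
      tendsto_const_div_atTop_nhds_zero_nat 1
    have := (h2.add hb).const_sub (1:ℝ)
    simpa using this
  refine tendsto_of_tendsto_of_tendsto_of_le_of_le' h1 tendsto_const_nhds ?_ ?_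
  · filter_upwards [eventually_ge_atTop 1] with N hN
    have hNpos : (0:ℝ) < (N:ℝ) := by exact_mod_cast hN
    set G : Set ℕ := {D : ℕ | 2 ≤ D ∧ D ≤ N ∧ ∀ n : ℕ, 1 ≤ n → n ≤ M * D →
        ∃ k : ℕ,
          (fun x : ℕ =>
            if x % D = 0 then x / D
            else if x % D = D - 1 then (D + 1) * x + 1
            else (D + 1) * x - x % D)^[k] n < D} with hG
    have hGfin : G.Finite := (Set.finite_Icc 2 N).subset (fun D hD => ⟨hD.1, hD.2.1⟩)
    have hsub : (Finset.Icc 2 N : Set ℕ) ⊆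
        G ∪ (((Finset.range (N+1)).filter (fun D => ¬ Good M D) : Finset ℕ) : Set ℕ) := by
      intro D hD
      rw [Finset.coe_Icc, Set.mem_Icc] at hD
      by_cases hg : Good M D
      · left; exact ⟨hD.1, hD.2, hg⟩
      · right
        rw [Finset.mem_coe, Finset.mem_filter, Finset.mem_range]
        exact ⟨by omega, hg⟩
    have hc := (Set.ncard_le_ncard hsub (hGfin.union (Finset.finite_toSet _))).trans
      (Set.ncard_union_le _ _)
    rw [Set.ncard_coe_finset, Set.ncard_coe_finset, Nat.card_Icc] at hc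
    have hc' : (N:ℝ) ≤ 1 + ((G.ncard : ℝ) +
        (((Finset.range (N+1)).filter (fun D => ¬ Good M D)).card : ℝ)) := by
      have : N ≤ 1 + (G.ncard + ((Finset.range (N+1)).filter (fun D => ¬ Good M D)).card) := by
        omega
      exact_mod_cast this
    rw [le_div_iff₀ hNpos]
    have e : (1 - (1 / (N:ℝ) +
        (((Finset.range (N+1)).filter (fun D => ¬ Good M D)).card : ℝ) / (N:ℝ))) * (N:ℝ) =
        (N:ℝ) - 1 - (((Finset.range (N+1)).filter (fun D => ¬ Good M D)).card : ℝ) := by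
      field_simp
      ring
    rw [e]
    linarith
  · filter_upwards [eventually_ge_atTop 1] with N hN
    have hNpos : (0:ℝ) < (N:ℝ) := by exact_mod_cast hN
    rw [div_le_one hNpos]
    have hc : Set.ncard {D : ℕ | 2 ≤ D ∧ D ≤ N ∧ ∀ n : ℕ, 1 ≤ n → n ≤ M * D →
        ∃ k : ℕ,
          (fun x : ℕ =>
            if x % D = 0 then x / D
            else if x % D = D - 1 then (D + 1) * x + 1
            else (D + 1) * x - x % D)^[k] n < D} ≤ (Finset.Icc 1 N : Set ℕ).ncard := by
      apply Set.ncard_le_ncard _ (Finset.finite_toSet _)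
      intro D hD
      rw [Finset.coe_Icc, Set.mem_Icc]
      exact ⟨by have := hD.1; omega, hD.2.1⟩
    rw [Set.ncard_coe_finset, Nat.card_Icc] at hc
    have : N + 1 - 1 = N := by omega
    rw [this] at hc
    exact_mod_cast hc

end Pool.Agent.Results.MP_5317dd_nt.AlmostAllD
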