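import Mathlib

set_option autoImplicit false

namespace Pool.Agent.Results.MP_5317dd_nt.CycleLength

/-- Wiggin's map `F_D`. -/
def F (D : ℕ) : ℕ → ℕ := fun x : ℕ =>
  if x % D = 0 then x / D
  else if x % D = D - 1 then (D + 1) * x + 1
  else (D + 1) * x - x % D

/-- Every cycle of `F_D` whose members are all at least `m ≥ D` has length at least
`1 + 2 log D / log (1 + 1/D + 1/(D m))`, in particular more than `2 (D - 1) log D`. -/
theorem result (D m L x : ℕ) (hD : 2 ≤ D) (hm : D ≤ m) (hL : 1 ≤ L)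
    (hcyc : (fun x : ℕ =>
        if x % D = 0 then x / D
        else if x % D = D - 1 then (D + 1) * x + 1
        else (D + 1) * x - x % D)^[L] x = x)
    (hge : ∀ i : ℕ, m ≤ (fun x : ℕ =>
        if x % D = 0 then x / D
        else if x % D = D - 1 then (D + 1) * x + 1
        else (D + 1) * x - x % D)^[i] x) :
    1 + 2 * (Real.log D / Real.log (1 + 1 / (D:ℝ) + 1 / ((D:ℝ) * m))) ≤ (L:ℝ) ∧
      2 * ((D:ℝ) - 1) * Real.log D < (L:ℝ) := by
  change (F D)^[L] x = x at hcyc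
  change ∀ i : ℕ, m ≤ (F D)^[i] x at hge
  set y : ℕ → ℕ := fun i => (F D)^[i] x with hy
  have hy0 : y L = y 0 := hcyc
  have hstep : ∀ i, y (i+1) = F D (y i) := fun i => Function.iterate_succ_apply' (F D) i x
  have hmy : ∀ i, m ≤ y i := hge
  have hDR : (2:ℝ) ≤ (D:ℝ) := by exact_mod_cast hD
  have hDpos : (0:ℝ) < (D:ℝ) := by linarith
  have hmR : (D:ℝ) ≤ (m:ℝ) := by exact_mod_cast hm
  have hmpos : (0:ℝ) < (m:ℝ) := by linarith
  have hlogD : 0 < Real.log D := Real.log_pos (by linarith)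
  have hypos : ∀ i, (0:ℝ) < (y i : ℝ) := fun i => by
    have : (m:ℝ) ≤ (y i : ℝ) := by exact_mod_cast hmy i
    linarith
  set δ := Real.log (1 + 1 / (D:ℝ) + 1 / ((D:ℝ) * m)) with hδ
  have harg : (1:ℝ) < 1 + 1 / (D:ℝ) + 1 / ((D:ℝ) * m) := by
    have h1 : (0:ℝ) < 1 / (D:ℝ) := by positivity
    have h2 : (0:ℝ) < 1 / ((D:ℝ) * m) := by positivity
    linarith
  have hδpos : 0 < δ := Real.log_pos harg
  -- the two kinds of steps
  have hdiv : ∀ i, y i % D = 0 → Real.log (y (i+1)) - Real.log (y i) = - Real.log D := by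
    intro i hi
    have h1 : D * y (i+1) = y i := by
      rw [hstep]
      unfold F
      simp only [hi, if_true]
      exact Nat.mul_div_cancel' (Nat.dvd_of_mod_eq_zero hi)
    have h2 : (y i : ℝ) = (D:ℝ) * (y (i+1) : ℝ) := by exact_mod_cast h1.symm
    rw [h2, Real.log_mul hDpos.ne' (hypos (i+1)).ne']
    ring
  have hmulN : ∀ i, y i % D ≠ 0 → D * y i < y (i+1) ∧ y (i+1) ≤ (D+1) * y i + 1 := by
    intro i hi
    have h0 : y (i+1) = F D (y i) := hstep i
    have hlt : y i % D < D := Nat.mod_lt _ (by omega)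
    have hle : D ≤ y i := hm.trans (hmy i)
    have hring : (D+1) * y i = D * y i + y i := by ring
    rw [h0]
    unfold F
    simp only [hi, if_false]
    split_ifs with h1
    · constructor <;> omega
    · constructor <;> omega
  have hmul1 : ∀ i, y i % D ≠ 0 → Real.log D < Real.log (y (i+1)) - Real.log (y i) := by
    intro i hi
    have h1 : (D:ℝ) * (y i : ℝ) < (y (i+1) : ℝ) := by exact_mod_cast (hmulN i hi).1
    have h2 := Real.log_lt_log (mul_pos hDpos (hypos i)) h1
    rw [Real.log_mul hDpos.ne' (hypos i).ne'] at h2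
    linarith
  have hmul2 : ∀ i, y i % D ≠ 0 →
      Real.log (y (i+1)) - Real.log (y i) ≤ Real.log D + δ := by
    intro i hi
    have h1 : (y (i+1) : ℝ) ≤ ((D:ℝ) + 1) * (y i : ℝ) + 1 := by
      exact_mod_cast (hmulN i hi).2
    have hmi : (m:ℝ) ≤ (y i : ℝ) := by exact_mod_cast hmy i
    have h2 : ((D:ℝ) + 1) * (y i : ℝ) + 1 ≤
        (D:ℝ) * (1 + 1 / (D:ℝ) + 1 / ((D:ℝ) * m)) * (y i : ℝ) := by
      have e : (D:ℝ) * (1 + 1 / (D:ℝ) + 1 / ((D:ℝ) * m)) = (D:ℝ) + 1 + 1 / (m:ℝ) := by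
        field_simp
      rw [e]
      have h3 : 1 ≤ 1 / (m:ℝ) * (y i : ℝ) := by
        rw [one_div, inv_mul_eq_div, le_div_iff₀ hmpos]; linarith
      nlinarith
    have h4 := Real.log_le_log (hypos (i+1)) (h1.trans h2)
    rw [Real.log_mul (by positivity) (hypos i).ne',
      Real.log_mul hDpos.ne' (by positivity)] at h4
    linarith
  -- sum over the cycle
  have htel : ∑ i ∈ Finset.range L, (Real.log (y (i+1)) - Real.log (y i)) = 0 := by
    rw [Finset.sum_range_sub (fun i => Real.log (y i)), hy0, sub_self]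
  set Mu := (Finset.range L).filter (fun i => y i % D ≠ 0) with hMu
  set Dv := (Finset.range L).filter (fun i => ¬ (y i % D ≠ 0)) with hDv
  have hcard : Mu.card + Dv.card = L := by
    rw [hMu, hDv, Finset.card_filter_add_card_filter_not, Finset.card_range]
  rw [← Finset.sum_filter_add_sum_filter_not (Finset.range L) (fun i => y i % D ≠ 0)] at htel
  have hD' : ∑ i ∈ Dv, (Real.log (y (i+1)) - Real.log (y i)) = - (Dv.card * Real.log D) := by
    rw [Finset.sum_congr rfl (g := fun _ => - Real.log D)]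
    · rw [Finset.sum_const, nsmul_eq_mul]; ring
    · intro i hi
      rw [hDv, Finset.mem_filter] at hi
      exact hdiv i (by simpa using hi.2)
  have hM2 : ∑ i ∈ Mu, (Real.log (y (i+1)) - Real.log (y i)) ≤
      Mu.card * (Real.log D + δ) := by
    rw [← nsmul_eq_mul]
    apply Finset.sum_le_card_nsmul
    intro i hi
    rw [hMu, Finset.mem_filter] at hi
    exact hmul2 i hi.2
  have hMne : Mu.Nonempty := by
    rw [Finset.nonempty_iff_ne_empty]
    intro hemp
    rw [← hMu, ← hDv, hemp, Finset.sum_empty, hD'] at htel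
    rw [hemp, Finset.card_empty] at hcard
    have : (1:ℝ) ≤ (Dv.card : ℝ) := by exact_mod_cast (by omega : 1 ≤ Dv.card)
    nlinarith
  have hM1 : Mu.card * Real.log D < ∑ i ∈ Mu, (Real.log (y (i+1)) - Real.log (y i)) := by
    rw [← nsmul_eq_mul]
    have : Mu.card • Real.log D = ∑ _i ∈ Mu, Real.log D := by rw [Finset.sum_const]
    rw [this]
    apply Finset.sum_lt_sum_of_nonempty hMne
    intro i hi
    rw [hMu, Finset.mem_filter] at hi
    exact hmul1 i hi.2
  rw [← hMu, ← hDv, hD'] at htel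
  have hlt : (Mu.card : ℝ) < (Dv.card : ℝ) := by
    by_contra hcon
    push Not at hcon
    nlinarith
  have hlt' : Mu.card + 1 ≤ Dv.card := by exact_mod_cast hlt
  have hltR : (Mu.card : ℝ) + 1 ≤ (Dv.card : ℝ) := by exact_mod_cast hlt'
  have hfin : Real.log D ≤ Mu.card * δ := by nlinarith
  have hfin2 : Real.log D / δ ≤ Mu.card := by
    rw [div_le_iff₀ hδpos]; exact hfin
  have hLR : (Mu.card : ℝ) + (Dv.card : ℝ) = (L:ℝ) := by exact_mod_cast hcard
  refine ⟨by linarith, ?_⟩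
  have hδle : δ ≤ 1 / (D:ℝ) + 1 / ((D:ℝ) * m) := by
    have := Real.log_le_sub_one_of_pos (show (0:ℝ) < 1 + 1 / (D:ℝ) + 1 / ((D:ℝ) * m) by linarith)
    rw [← hδ] at this
    linarith
  have h1 : 1 / ((D:ℝ) * m) ≤ 1 / ((D:ℝ) * D) := by gcongr
  have h2 : ((D:ℝ) - 1) * δ ≤ 1 := by
    have h3 : ((D:ℝ) - 1) * δ ≤ ((D:ℝ) - 1) * (1 / (D:ℝ) + 1 / ((D:ℝ) * D)) := by
      apply mul_le_mul_of_nonneg_left (by linarith) (by linarith)
    have h4 : ((D:ℝ) - 1) * (1 / (D:ℝ) + 1 / ((D:ℝ) * D)) = 1 - 1 / ((D:ℝ) * D) := by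
      field_simp
      ring
    have h5 : (0:ℝ) < 1 / ((D:ℝ) * D) := by positivity
    linarith
  have h6 : ((D:ℝ) - 1) * Real.log D ≤ Real.log D / δ := by
    rw [le_div_iff₀ hδpos]
    nlinarith
  linarith

end Pool.Agent.Results.MP_5317dd_nt.CycleLength
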